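import Pool.Agent.H513Z.Inj.Defs

set_option autoImplicit false

namespace Pool.Agent.H513Z.Inj

open Cardinal Set Filter Topology

theorem nstar_le (u : NStar) : (u.1 : Filter ℕ) ≤ cofinite := by
  rcases u.1.le_cofinite_or_eq_pure with h | ⟨a, ha⟩
  · exact h
  · exact absurd ⟨a, ha.symm⟩ u.2

theorem eventually_of_nstar {p : ℕ → Prop} (h : ∀ u : NStar, ∀ᶠ n in (u.1 : Filter ℕ), p n) :
    ∀ᶠ n in cofinite, p n := by
  refine Filter.mem_iff_ultrafilter.2 fun g hg => h ⟨g, ?_⟩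
  rintro ⟨a, rfl⟩
  have : ({a}ᶜ : Set ℕ) ∈ (pure a : Ultrafilter ℕ) := hg (Set.finite_singleton a).compl_mem_cofinite
  simp at this

/-- The sequence `a` represents the function `f` on `ℕ*`. -/
def Rep (a : ℕ → ℝ) (f : C(NStar, ℝ)) : Prop := ∀ u : NStar, Tendsto a u.1 (𝓝 (f u))

theorem exists_rep (f : C(NStar, ℝ)) : ∃ a, Rep a f := by
  obtain ⟨g, -, hg⟩ := ContinuousMap.exists_extension_forall_mem_of_isClosedEmbedding
    (t := univ) f (fun _ => mem_univ _) univ_nonempty isClosed_nstar.isClosedEmbedding_subtypeVal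
  refine ⟨fun n => g (pure n), fun u => ?_⟩
  have : f u = g u.1 := (congrFun hg u).symm
  rw [this]
  exact (g.continuous.tendsto u.1).comp u.1.tendsto_pure_self

theorem exists_of_bdd (a : ℕ → ℝ) (c : ℝ) (h : ∀ᶠ n in cofinite, |a n| ≤ c) : ∃ f, Rep a f := by
  have hc : -|c| ≤ |c| := by have := abs_nonneg c; linarith
  let a' : ℕ → Icc (-|c|) |c| := fun n => projIcc _ _ hc (a n)
  refine ⟨⟨fun u => (Ultrafilter.extend a' u.1).1, continuous_subtype_val.comp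
    ((continuous_ultrafilter_extend a').comp continuous_subtype_val)⟩, fun u => ?_⟩
  have h1 : Tendsto a' u.1 (𝓝 (Ultrafilter.extend a' u.1)) := ultrafilter_extend_eq_iff.1 rfl
  refine ((continuous_subtype_val.tendsto _).comp h1).congr' ?_
  filter_upwards [nstar_le u h] with n hn
  have h2 : a n ∈ Icc (-|c|) |c| := abs_le.1 (hn.trans (le_abs_self c))
  simp only [Function.comp, a', projIcc_of_mem hc h2]

variable {X : Type} [NormedAddCommGroup X] [NormedSpace ℝ X]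

theorem lift_asymp (Y : Submodule ℝ X) (t : Y →L[ℝ] C(NStar, ℝ)) (τ : Y → ℕ → ℝ)
    (hτ : ∀ y, Rep (τ y) (t y)) (H : Set Y) (hH : H.Finite) {η : ℝ} (hη : 0 < η) :
    ∃ m : ℕ, ∀ n ≥ m, ∃ ψ : StrongDual ℝ X, ‖ψ‖ ≤ ‖t‖ ∧ ∀ y ∈ H, |ψ y - τ y n| ≤ η := by
  rw [← Filter.eventually_atTop, ← Nat.cofinite_eq_atTop]
  refine eventually_of_nstar fun u => ?_
  let f : StrongDual ℝ Y := (ContinuousMap.evalCLM ℝ u).comp t
  have hf : ‖f‖ ≤ ‖t‖ := ContinuousLinearMap.opNorm_le_bound _ t.opNorm_nonneg fun y =>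
    ((t y).norm_coe_le_norm u).trans (t.le_opNorm y)
  obtain ⟨ψ, hψ, hn⟩ := exists_extension_norm_eq Y f
  have h1 : ∀ y ∈ H, ∀ᶠ n in (u.1 : Filter ℕ), |ψ y - τ y n| ≤ η := by
    intro y _
    filter_upwards [Metric.tendsto_nhds.1 (hτ y u) η hη] with n hn'
    rw [hψ y, abs_sub_comm]
    exact hn'.le
  filter_upwards [(Filter.eventually_all_finite hH).2 h1] with n hn'
  exact ⟨ψ, hn ▸ hf, hn'⟩

theorem compact_ball (c : ℝ) : IsCompact {δ : WeakDual ℝ X | ‖WeakDual.toStrongDual δ‖ ≤ c} := by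
  have := WeakDual.isCompact_closedBall (𝕜 := ℝ) (E := X) 0 c
  simpa [Set.preimage] using this

theorem glue (Y : Submodule ℝ X) (R : Set X) (hR : R.Finite) (c : ℝ) {η : ℝ} (hη : 0 < η) :
    ∃ (G : Finset Y) (η' : ℝ), 0 < η' ∧ ∀ δ : StrongDual ℝ X, ‖δ‖ ≤ c →
      (∀ y ∈ G, |δ y| ≤ η') → ∃ χ : StrongDual ℝ X, ‖χ‖ ≤ c ∧ (∀ y : Y, χ y = 0) ∧
        ∀ x ∈ R, |δ x - χ x| ≤ η := by
  classical
  let O : Set (WeakDual ℝ X) := ⋃ χ : {χ : StrongDual ℝ X // ‖χ‖ ≤ c ∧ ∀ y : Y, χ y = 0},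
    ⋂ x ∈ R, {δ | |δ x - χ.1 x| < η}
  have hO : IsOpen O := isOpen_iUnion fun χ => hR.isOpen_biInter fun x _ =>
    isOpen_lt ((WeakDual.eval_continuous x).sub continuous_const).abs continuous_const
  obtain ⟨T, hT⟩ := ((compact_ball (X := X) c).diff hO).elim_finite_subfamily_closed
    (fun z : Y × ℕ => {δ : WeakDual ℝ X | |δ z.1| ≤ 1 / ((z.2 : ℝ) + 1)})
    (fun z => isClosed_le (WeakDual.eval_continuous _).abs continuous_const) (by
      rw [Set.eq_empty_iff_forall_notMem]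
      rintro δ ⟨⟨h1, h2⟩, h3⟩
      apply h2
      refine mem_iUnion.2 ⟨⟨WeakDual.toStrongDual δ, h1, fun y => ?_⟩, mem_iInter₂.2 fun x _ => ?_⟩
      · by_contra hne
        obtain ⟨k, hk⟩ := exists_nat_one_div_lt (abs_pos.2 hne)
        exact absurd (mem_iInter.1 h3 (y, k)) (not_le.2 hk)
      · simpa using hη)
  refine ⟨T.image Prod.fst, 1 / ((T.sup Prod.snd : ℕ) + 1 : ℝ), by positivity, fun δ h1 h2 => ?_⟩
  have h3 : StrongDual.toWeakDual δ ∈ O := by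
    by_contra hc
    refine Set.eq_empty_iff_forall_notMem.1 hT (StrongDual.toWeakDual δ)
      ⟨⟨h1, hc⟩, mem_iInter₂.2 fun z hz => ?_⟩
    refine (h2 z.1 (Finset.mem_image_of_mem _ hz)).trans ?_
    apply one_div_le_one_div_of_le (by positivity)
    have : z.2 ≤ T.sup Prod.snd := Finset.le_sup hz
    exact_mod_cast Nat.succ_le_succ this
  obtain ⟨χ, hχ⟩ := mem_iUnion.1 h3
  exact ⟨χ.1, χ.2.1, χ.2.2, fun x hx => le_of_lt (mem_iInter₂.1 hχ x hx)⟩

theorem exists_functional (D : Set X) (c : ℝ) (g : X → ℝ)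
    (h : ∀ S : Finset X, (S : Set X) ⊆ D → ∀ ε > 0, ∃ φ : StrongDual ℝ X, ‖φ‖ ≤ c ∧
      ∀ x ∈ S, |g x - φ x| ≤ ε) :
    ∃ φ : StrongDual ℝ X, ‖φ‖ ≤ c ∧ ∀ x ∈ D, φ x = g x := by
  classical
  obtain ⟨φ, h1, h2⟩ := (compact_ball (X := X) c).inter_iInter_nonempty
    (fun z : D × ℕ => {δ : WeakDual ℝ X | |g z.1 - δ z.1| ≤ 1 / ((z.2 : ℝ) + 1)})
    (fun z => isClosed_le (continuous_const.sub (WeakDual.eval_continuous _)).abs continuous_const)
    (by
      intro T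
      obtain ⟨φ, h1, h2⟩ := h (T.image fun z => z.1.1) (by
        intro x hx
        obtain ⟨z, -, rfl⟩ := Finset.mem_image.1 hx
        exact z.1.2) (1 / ((T.sup Prod.snd : ℕ) + 1 : ℝ)) (by positivity)
      refine ⟨StrongDual.toWeakDual φ, h1, mem_iInter₂.2 fun z hz => ?_⟩
      refine (h2 z.1.1 (Finset.mem_image_of_mem (fun z : D × ℕ => z.1.1) hz)).trans ?_
      apply one_div_le_one_div_of_le (by positivity)
      have : z.2 ≤ T.sup Prod.snd := Finset.le_sup hz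
      exact_mod_cast Nat.succ_le_succ this)
  refine ⟨WeakDual.toStrongDual φ, h1, fun x hx => ?_⟩
  by_contra hne
  have hne' : g x - φ x ≠ 0 := fun h0 => hne (sub_eq_zero.1 h0).symm
  obtain ⟨k, hk⟩ := exists_nat_one_div_lt (abs_pos.2 hne')
  exact absurd (mem_iInter.1 h2 (⟨x, hx⟩, k)) (not_le.2 hk)

/-- From an approximately linear family of sequences to an operator. -/
theorem exists_operator (D : Set X) (hD : Dense D) (c : ℝ) (hc : 0 ≤ c) (a : X → ℕ → ℝ)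
    (h : ∀ S : Finset X, (S : Set X) ⊆ D → ∀ ε > 0, ∀ᶠ n in cofinite,
      ∃ φ : StrongDual ℝ X, ‖φ‖ ≤ c ∧ ∀ x ∈ S, |a x n - φ x| ≤ ε) :
    ∃ T : X →L[ℝ] C(NStar, ℝ), ‖T‖ ≤ c ∧ ∀ x ∈ D, Rep (a x) (T x) := by
  classical
  have h1 : ∀ x, ∃ f, x ∈ D → Rep (a x) f := by
    intro x
    by_cases hx : x ∈ D
    · obtain ⟨f, hf⟩ := exists_of_bdd (a x) (c * ‖x‖ + 1) (by
        filter_upwards [h {x} (by simpa using hx) 1 one_pos] with n ⟨φ, h1, h2⟩
        have h3 := h2 x (Finset.mem_singleton_self x)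
        have h4 : |φ x| ≤ c * ‖x‖ := (φ.le_opNorm x).trans
          (mul_le_mul_of_nonneg_right h1 (norm_nonneg _))
        calc |a x n| = |(a x n - φ x) + φ x| := by ring_nf
          _ ≤ |a x n - φ x| + |φ x| := abs_add_le _ _
          _ ≤ c * ‖x‖ + 1 := by linarith)
      exact ⟨f, fun _ => hf⟩
    · exact ⟨0, fun h' => absurd h' hx⟩
  choose f hf using h1
  have h2 : ∀ u : NStar, ∃ φ : StrongDual ℝ X, ‖φ‖ ≤ c ∧ ∀ x ∈ D, φ x = f x u := by
    intro u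
    refine exists_functional D c (fun x => f x u) fun S hS ε hε => ?_
    have h3 : ∀ x ∈ S, ∀ᶠ n in (u.1 : Filter ℕ), |a x n - f x u| ≤ ε / 2 := by
      intro x hx
      filter_upwards [Metric.tendsto_nhds.1 (hf x (hS hx) u) (ε / 2) (half_pos hε)] with n hn
      exact hn.le
    obtain ⟨n, ⟨φ, h4, h5⟩, h6⟩ := (((h S hS (ε / 2) (half_pos hε)).filter_mono (nstar_le u)).and
      ((Filter.eventually_all_finset S).2 h3)).exists
    refine ⟨φ, h4, fun x hx => ?_⟩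
    have e1 := abs_le.1 (h5 x hx)
    have e2 := abs_le.1 (h6 x hx)
    rw [abs_le]
    constructor <;> linarith [e1.1, e1.2, e2.1, e2.2]
  choose φ hφ1 hφ2 using h2
  have hb : ∀ u x, |φ u x| ≤ c * ‖x‖ := fun u x => ((φ u).le_opNorm x).trans
    (mul_le_mul_of_nonneg_right (hφ1 u) (norm_nonneg _))
  have hcont : ∀ x, Continuous fun u => φ u x := by
    intro x
    refine continuous_of_uniform_approx_of_continuous fun V hV => ?_
    obtain ⟨ε, hε, hV'⟩ := Metric.mem_uniformity_dist.1 hV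
    obtain ⟨x', hx', hd⟩ := hD.exists_dist_lt x (ε := ε / (c + 1)) (by positivity)
    refine ⟨f x', (f x').continuous, fun u => hV' ?_⟩
    rw [← hφ2 u x' hx', Real.dist_eq, ← map_sub]
    refine (hb u _).trans_lt ?_
    rw [dist_eq_norm, lt_div_iff₀ (by positivity)] at hd
    nlinarith [norm_nonneg (x - x')]
  let L : X →ₗ[ℝ] C(NStar, ℝ) :=
    { toFun := fun x => ⟨fun u => φ u x, hcont x⟩
      map_add' := fun x y => by ext u; simp
      map_smul' := fun r x => by ext u; simp }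
  have hL : ∀ x, ‖L x‖ ≤ c * ‖x‖ := fun x =>
    (ContinuousMap.norm_le _ (by positivity)).2 fun u => hb u x
  refine ⟨L.mkContinuous c hL, L.mkContinuous_norm_le hc hL, fun x hx u => ?_⟩
  have : (L.mkContinuous c hL x) u = f x u := hφ2 u x hx
  rw [this]
  exact hf x hx u

theorem exists_dense_pair (Y : Submodule ℝ X) {κ : Cardinal.{0}} (hκ : ℵ₀ ≤ κ) (h : dens X ≤ κ) :
    ∃ D : Set X, Dense D ∧ #D ≤ κ ∧ Dense {y : Y | y.1 ∈ D} := by
  have h0 : ({c | ∃ D : Set X, Dense D ∧ #D = c} : Set Cardinal.{0}).Nonempty :=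
    ⟨_, univ, dense_univ, rfl⟩
  obtain ⟨D0, hD0, hc⟩ := csInf_mem h0
  have hc' : #D0 ≤ κ := hc.le.trans h
  have h1 : ∀ z : D0 × ℕ, ∃ y : Y, (∃ y' : Y, dist z.1.1 y'.1 < 1 / ((z.2 : ℝ) + 1)) →
      dist z.1.1 y.1 < 1 / ((z.2 : ℝ) + 1) := by
    intro z
    by_cases hz : ∃ y' : Y, dist z.1.1 y'.1 < 1 / ((z.2 : ℝ) + 1)
    · obtain ⟨y, hy⟩ := hz
      exact ⟨y, fun _ => hy⟩
    · exact ⟨0, fun h' => absurd h' hz⟩
  choose g hg using h1
  refine ⟨D0 ∪ range fun z => (g z).1, hD0.mono subset_union_left, ?_, ?_⟩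
  · refine (Cardinal.mk_union_le _ _).trans ?_
    refine (add_le_add hc' (Cardinal.mk_range_le.trans ?_)).trans (Cardinal.add_eq_self hκ).le
    rw [Cardinal.mk_prod, Cardinal.lift_id, Cardinal.lift_id]
    exact (mul_le_mul' hc' (by simpa using hκ)).trans (Cardinal.mul_eq_self hκ).le
  · refine Metric.dense_iff.2 fun y r hr => ?_
    obtain ⟨k, hk⟩ := exists_nat_one_div_lt (half_pos hr)
    obtain ⟨d, hd, hdy⟩ := hD0.exists_dist_lt y.1 (ε := 1 / ((k : ℝ) + 1)) (by positivity)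
    have h2 := hg (⟨d, hd⟩, k) ⟨y, by rwa [dist_comm]⟩
    refine ⟨g (⟨d, hd⟩, k), ?_, Or.inr ⟨_, rfl⟩⟩
    rw [Metric.mem_ball, Subtype.dist_eq]
    have h3 := dist_triangle_left (g (⟨d, hd⟩, k)).1 y.1 d
    rw [dist_comm d y.1] at h3
    simp only at h2
    linarith

end Pool.Agent.H513Z.Inj
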