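import Mathlib

set_option autoImplicit false

/-!
# The remainder `ℕ* = βℕ ∖ ℕ` and `ℵ`-injective Banach spaces
-/

namespace Pool.Agent.H513Z.Inj

open Cardinal

/-- `ℕ* = βℕ ∖ ℕ`: the non-principal ultrafilters on `ℕ`, as a subspace of the space `βℕ` of all
ultrafilters on `ℕ`. -/
abbrev NStar : Type := {u : Ultrafilter ℕ // u ∉ Set.range (pure : ℕ → Ultrafilter ℕ)}

theorem nstar_eq : {u : Ultrafilter ℕ | u ∉ Set.range (pure : ℕ → Ultrafilter ℕ)} =
    ⋂ n : ℕ, {u : Ultrafilter ℕ | ({n}ᶜ : Set ℕ) ∈ u} := by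
  ext u
  simp only [Set.mem_ofPred_eq, Set.mem_iInter, Set.mem_range, not_exists,
    Ultrafilter.compl_mem_iff_notMem]
  refine forall_congr' fun n => not_congr ⟨fun h => h ▸ Set.mem_singleton n, fun h => ?_⟩
  obtain ⟨m, hm, rfl⟩ := Ultrafilter.eq_pure_of_finite_mem (Set.finite_singleton n) h
  rw [Set.mem_singleton_iff.1 hm]

theorem isClosed_nstar :
    IsClosed {u : Ultrafilter ℕ | u ∉ Set.range (pure : ℕ → Ultrafilter ℕ)} := by
  rw [nstar_eq]
  exact isClosed_iInter fun n => ultrafilter_isClosed_basic _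

/-- `ℕ*` is compact, so `C(ℕ*, ℝ)` carries the supremum norm. -/
instance : CompactSpace NStar := isCompact_iff_compactSpace.1 isClosed_nstar.isCompact

/-- The density character: the least cardinality of a dense set. -/
noncomputable def dens (X : Type) [TopologicalSpace X] : Cardinal.{0} :=
  sInf {c | ∃ D : Set X, Dense D ∧ #D = c}

/-- `E` is `(lam, κ)`-injective: each bounded operator `t` into `E` from a closed subspace `Y` of a
real Banach space `X` of density character less than `κ` extends to an operator `T` on `X` with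
`‖T‖ ≤ lam * ‖t‖`. -/
def LamInjective (E : Type) [NormedAddCommGroup E] [NormedSpace ℝ E] (lam : ℝ)
    (κ : Cardinal.{0}) : Prop :=
  ∀ (X : Type) [NormedAddCommGroup X] [NormedSpace ℝ X] [CompleteSpace X], dens X < κ →
    ∀ Y : Submodule ℝ X, IsClosed (Y : Set X) → ∀ t : Y →L[ℝ] E,
      ∃ T : X →L[ℝ] E, (∀ y : Y, T y = t y) ∧ ‖T‖ ≤ lam * ‖t‖

/-- `E` is `κ`-injective: `(lam, κ)`-injective for some `lam ≥ 1`. -/
def AlephInjective (E : Type) [NormedAddCommGroup E] [NormedSpace ℝ E] (κ : Cardinal.{0}) : Prop :=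
  ∃ lam : ℝ, 1 ≤ lam ∧ LamInjective E lam κ

end Pool.Agent.H513Z.Inj
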