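import Pool.Agent.H513Z.Inj.Basic
import Pool.Agent.H318Z.MA.Main
import Pool.Agent.Helper292.SP.Lib

set_option autoImplicit false

namespace Pool.Agent.H513Z.Inj

open Cardinal Set Filter Topology

variable {X : Type} [NormedAddCommGroup X] [NormedSpace ℝ X]

/-- The values `v` on `S` are close to a functional, and close to the lifting on `S ∩ Y`. -/
def Good (Y : Submodule ℝ X) (τ : Y → ℕ → ℝ) (c : ℝ) (S : Finset X) (ε : ℝ) (n : ℕ)
    (v : X → ℝ) : Prop :=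
  ∃ φ : StrongDual ℝ X, ‖φ‖ ≤ c ∧ (∀ x ∈ S, |v x - φ x| ≤ ε) ∧
    ∀ y : Y, y.1 ∈ S → |v y - τ y n| ≤ ε

theorem Good.congr {Y : Submodule ℝ X} {τ : Y → ℕ → ℝ} {c : ℝ} {S : Finset X} {ε : ℝ} {n : ℕ}
    {v w : X → ℝ} (h : Good Y τ c S ε n v) (hvw : ∀ x ∈ S, w x = v x) : Good Y τ c S ε n w := by
  obtain ⟨φ, h1, h2, h3⟩ := h
  exact ⟨φ, h1, fun x hx => hvw x hx ▸ h2 x hx, fun y hy => hvw y hy ▸ h3 y hy⟩

theorem Good.mono {Y : Submodule ℝ X} {τ : Y → ℕ → ℝ} {c : ℝ} {S S' : Finset X} {ε ε' : ℝ} {n : ℕ}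
    {v : X → ℝ} (h : Good Y τ c S ε n v) (hS : S' ⊆ S) (hε : ε ≤ ε') : Good Y τ c S' ε' n v := by
  obtain ⟨φ, h1, h2, h3⟩ := h
  exact ⟨φ, h1, fun x hx => (h2 x (hS hx)).trans hε, fun y hy => (h3 y (hS hy)).trans hε⟩

/-- The conditions. -/
structure PC (Y : Submodule ℝ X) (τ : Y → ℕ → ℝ) (c : ℝ) where
  N : ℕ
  F : Finset X
  Pr : Finset (Finset X × ℕ × ℕ)
  a : X → ℕ → ℚ
  hS : ∀ π ∈ Pr, π.1 ⊆ F
  hG : ∀ π ∈ Pr, ∀ n ≥ π.2.2, Good Y τ c π.1 (1 / ((π.2.1 : ℝ) + 1)) n fun x => (a x n : ℝ)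

variable {Y : Submodule ℝ X} {τ : Y → ℕ → ℝ} {c : ℝ}

instance : Preorder (PC Y τ c) where
  le q p := p.N ≤ q.N ∧ p.F ⊆ q.F ∧ p.Pr ⊆ q.Pr ∧ ∀ x ∈ p.F, ∀ n < p.N, q.a x n = p.a x n
  le_refl p := ⟨le_rfl, Finset.Subset.refl _, Finset.Subset.refl _, fun _ _ _ _ => rfl⟩
  le_trans r q p h h' := ⟨h'.1.trans h.1, h'.2.1.trans h.2.1, h'.2.2.1.trans h.2.2.1,
    fun x hx n hn => (h.2.2.2 x (h'.2.1 hx) n (hn.trans_le h'.1)).trans (h'.2.2.2 x hx n hn)⟩

theorem PC.le_def {p q : PC Y τ c} : q ≤ p ↔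
    p.N ≤ q.N ∧ p.F ⊆ q.F ∧ p.Pr ⊆ q.Pr ∧ ∀ x ∈ p.F, ∀ n < p.N, q.a x n = p.a x n := Iff.rfl

/-- A rational approximation. -/
theorem exists_ratapprox {η : ℝ} (hη : 0 < η) : ∃ ρ : ℝ → ℚ, ∀ r, |(ρ r : ℝ) - r| ≤ η := by
  have : ∀ r : ℝ, ∃ q : ℚ, |(q : ℝ) - r| ≤ η := fun r => by
    obtain ⟨q, hq⟩ := exists_rat_near r hη
    exact ⟨q, by rw [abs_sub_comm]; exact hq.le⟩
  exact ⟨fun r => (this r).choose, fun r => (this r).choose_spec⟩

theorem inv_le_of_le {k K : ℕ} (h : k ≤ K) : 1 / ((K : ℝ) + 1) ≤ 1 / ((k : ℝ) + 1) := by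
  apply one_div_le_one_div_of_le (by positivity)
  exact_mod_cast Nat.succ_le_succ h

theorem tri {a b d e f : ℝ} (h1 : |a - b| ≤ e) (h2 : |b - d| ≤ f) : |a - d| ≤ e + f :=
  (abs_sub_le a b d).trans (add_le_add h1 h2)

section

variable {M : ℝ} (hM : 0 ≤ M)
  (hA : ∀ H : Set Y, H.Finite → ∀ η > 0, ∃ m : ℕ, ∀ n ≥ m, ∃ ψ : StrongDual ℝ X, ‖ψ‖ ≤ M ∧
    ∀ y ∈ H, |ψ y - τ y n| ≤ η)

include hM hA

theorem PC.dense (p : PC Y τ (3 * M)) (S : Finset X) (k m0 : ℕ) :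
    ∃ q ≤ p, S ⊆ q.F ∧ (∃ m, (S, k, m) ∈ q.Pr) ∧ m0 ≤ q.N := by
  classical
  let K : ℕ := max k (p.Pr.sup fun π => π.2.1)
  have hη : (0 : ℝ) < 1 / ((K : ℝ) + 1) / 2 := by positivity
  obtain ⟨ρ, hρ⟩ := exists_ratapprox hη
  obtain ⟨m, hm⟩ := hA (Subtype.val ⁻¹' ((p.F ∪ S : Finset X) : Set X))
    ((Finset.finite_toSet _).preimage Subtype.val_injective.injOn) _ hη
  choose! ψ hψ1 hψ2 using hm
  let m' := max m (max p.N m0)
  let a : X → ℕ → ℚ := fun x n => if n < m' then p.a x n else ρ (ψ n x)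
  have key : ∀ n ≥ m', Good Y τ (3 * M) (p.F ∪ S) (1 / ((K : ℝ) + 1)) n fun x => (a x n : ℝ) := by
    intro n hn
    have hn' : m ≤ n := (le_max_left _ _).trans hn
    refine ⟨ψ n, (hψ1 n hn').trans (by linarith), fun x _ => ?_, fun y hy => ?_⟩
    · simp only [a, if_neg (not_lt.2 hn)]
      exact (hρ _).trans (half_le_self (by positivity))
    · simp only [a, if_neg (not_lt.2 hn)]
      exact (tri (hρ _) (hψ2 n hn' y hy)).trans (add_halves _).le
  refine ⟨⟨m', p.F ∪ S, insert (S, k, m') p.Pr, a, ?_, ?_⟩, ⟨?_, ?_, ?_, ?_⟩, ?_, ⟨m', ?_⟩, ?_⟩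
  · intro π hπ
    rcases Finset.mem_insert.1 hπ with rfl | hπ
    · exact Finset.subset_union_right
    · exact (p.hS π hπ).trans Finset.subset_union_left
  · intro π hπ n hn
    rcases Finset.mem_insert.1 hπ with rfl | hπ
    · exact (key n hn).mono Finset.subset_union_right (inv_le_of_le (le_max_left _ _))
    · by_cases h : n < m'
      · exact (p.hG π hπ n hn).congr fun x _ => by simp only [a, if_pos h]
      · exact (key n (not_lt.1 h)).mono ((p.hS π hπ).trans Finset.subset_union_left)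
          (inv_le_of_le ((Finset.le_sup (f := fun π => π.2.1) hπ).trans (le_max_right _ _)))
  · exact (le_max_left _ _).trans (le_max_right _ _)
  · exact Finset.subset_union_left
  · exact Finset.subset_insert _ _
  · intro x _ n hn
    exact if_pos (hn.trans_le ((le_max_left _ _).trans (le_max_right _ _)))
  · exact Finset.subset_union_right
  · exact Finset.mem_insert_self _ _
  · exact (le_max_right _ _).trans (le_max_right _ _)

theorem PC.ccc : H318Z.MA.CCC (PC Y τ (3 * M)) := by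
  classical
  intro W hW
  by_contra hcon
  have hW' : ¬ #W ≤ ℵ₀ := by rwa [Cardinal.le_aleph0_iff_set_countable]
  obtain ⟨W1, R, hW1, hW1c, hR⟩ := Pool.Agent.Helper292.SP.delta_sys (σ := ℵ₀) le_rfl le_rfl (by
    intro τ hτ
    obtain ⟨n, rfl⟩ := Cardinal.lt_aleph0.mp hτ
    exact Cardinal.power_nat_le le_rfl) W hW' (fun p => (p.F : Set X))
    (fun p => (Finset.finite_toSet p.F).lt_aleph0)
  obtain ⟨W2, K, hW2, hW2c, hK⟩ := Pool.Agent.Helper292.SP.pigeon le_rfl W1 hW1c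
    (fun p => p.Pr.sup fun π => π.2.1) (by simp)
  have two : ∀ T : Set (PC Y τ (3 * M)), (¬ #T ≤ ℵ₀) → T.Nontrivial := by
    intro T hT
    have : T.Infinite := fun hf => hT hf.lt_aleph0.le
    exact this.nontrivial
  have hRf : R.Finite := by
    obtain ⟨p, hp, q, hq, hne⟩ := two W1 hW1c
    rw [← hR p hp q hq hne]
    exact (Finset.finite_toSet _).subset inter_subset_left
  have hη : (0 : ℝ) < 1 / ((K : ℝ) + 1) / 2 := by positivity
  set η : ℝ := 1 / ((K : ℝ) + 1) / 2 with hηd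
  obtain ⟨ρ, hρ⟩ := exists_ratapprox hη
  obtain ⟨G, η', hη', hG⟩ := glue Y R hRf (2 * M) hη
  have h1 : ∀ p : PC Y τ (3 * M), ∃ m : ℕ, p.N ≤ m ∧ ∀ n ≥ m, ∃ ψ : StrongDual ℝ X, ‖ψ‖ ≤ M ∧
      ∀ y : Y, (y.1 ∈ p.F ∨ y ∈ G) → |ψ y - τ y n| ≤ min η (η' / 2) := by
    intro p
    obtain ⟨m, hm⟩ := hA (Subtype.val ⁻¹' (p.F : Set X) ∪ G)
      (((Finset.finite_toSet _).preimage Subtype.val_injective.injOn).union (Finset.finite_toSet _))
      (min η (η' / 2)) (lt_min hη (half_pos hη'))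
    exact ⟨max p.N m, le_max_left _ _, fun n hn => hm n ((le_max_right _ _).trans hn)⟩
  choose m hm1 hm2 using h1
  have : Finite R := hRf
  obtain ⟨W3, z, hW3, hW3c, hz⟩ := Pool.Agent.Helper292.SP.pigeon le_rfl W2 hW2c
    (fun p => (⟨m p, fun x i => p.a x.1 i.1⟩ : Σ j : ℕ, (R → Fin j → ℚ))) Cardinal.mk_le_aleph0
  obtain ⟨p, hp, q, hq, hne⟩ := two W3 hW3c
  have hpq := (hz p hp).trans (hz q hq).symm
  have hmm : m p = m q := congrArg Sigma.fst hpq
  have hval : ∀ x ∈ R, ∀ n < m p, p.a x n = q.a x n := by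
    intro x hx n hn
    have := congrArg (fun w : Σ j : ℕ, (R → Fin j → ℚ) =>
      if h : n < w.1 then w.2 ⟨x, hx⟩ ⟨n, h⟩ else 0) hpq
    simp only [dif_pos hn, dif_pos (hmm ▸ hn : n < m q)] at this
    exact this
  have hRpq : ∀ x, x ∈ p.F → x ∈ q.F → x ∈ R := fun x h1 h2 => by
    rw [← hR p (hW2 (hW3 hp)) q (hW2 (hW3 hq)) hne]
    exact ⟨h1, h2⟩
  have h2 : ∀ n ≥ m p, ∃ w : X → ℝ, Good Y τ (3 * M) p.F η n w ∧ Good Y τ (3 * M) q.F η n w := by
    intro n hn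
    obtain ⟨ψ1, a1, b1⟩ := hm2 p n hn
    obtain ⟨ψ2, a2, b2⟩ := hm2 q n (hmm ▸ hn)
    obtain ⟨χ, c1, c2, c3⟩ := hG (ψ1 - ψ2) ((norm_sub_le _ _).trans (by linarith)) (by
      intro y hy
      have e1 := (b1 y (Or.inr hy)).trans (min_le_right _ _)
      have e2 := (b2 y (Or.inr hy)).trans (min_le_right _ _)
      rw [abs_sub_comm] at e2
      exact (tri e1 e2).trans (add_halves _).le)
    refine ⟨fun x => if x ∈ p.F then ψ1 x else ψ2 x + χ x, ⟨ψ1, by linarith, ?_, ?_⟩,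
      ⟨ψ2 + χ, (norm_add_le _ _).trans (by linarith), ?_, ?_⟩⟩
    · intro x hx
      simp only [if_pos hx, sub_self, abs_zero]
      exact hη.le
    · intro y hy
      simp only [if_pos hy]
      exact (b1 y (Or.inl hy)).trans (min_le_left _ _)
    · intro x hx
      by_cases h : x ∈ p.F
      · simp only [if_pos h]
        have := c3 x (hRpq x h hx)
        simp only [ContinuousLinearMap.sub_apply] at this
        simp only [ContinuousLinearMap.add_apply]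
        rwa [← sub_sub]
      · simp only [if_neg h, ContinuousLinearMap.add_apply, sub_self, abs_zero]
        exact hη.le
    · intro y hy
      by_cases h : y.1 ∈ p.F
      · simp only [if_pos h]
        exact (b1 y (Or.inl h)).trans (min_le_left _ _)
      · simp only [if_neg h, c2 y, add_zero]
        exact (b2 y (Or.inl hy)).trans (min_le_left _ _)
  choose! w hw1 hw2 using h2
  let a : X → ℕ → ℚ := fun x n =>
    if n < m p then (if x ∈ p.F then p.a x n else q.a x n) else ρ (w n x)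
  have key : ∀ (S : Finset X) (n : ℕ), m p ≤ n → Good Y τ (3 * M) S η n (w n) →
      Good Y τ (3 * M) S (1 / ((K : ℝ) + 1)) n fun x => (a x n : ℝ) := by
    rintro S n hn ⟨φ, e1, e2, e3⟩
    refine ⟨φ, e1, fun x hx => ?_, fun y hy => ?_⟩
    · simp only [a, if_neg (not_lt.2 hn)]
      exact (tri (hρ _) (e2 x hx)).trans (add_halves _).le
    · simp only [a, if_neg (not_lt.2 hn)]
      exact (tri (hρ _) (e3 y hy)).trans (add_halves _).le
  have ap : ∀ x ∈ p.F, ∀ n < m p, a x n = p.a x n := fun x hx n hn => by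
    simp only [a, if_pos hn, if_pos hx]
  have aq : ∀ x ∈ q.F, ∀ n < m p, a x n = q.a x n := fun x hx n hn => by
    by_cases h : x ∈ p.F
    · rw [ap x h n hn, hval x (hRpq x h hx) n hn]
    · simp only [a, if_pos hn, if_neg h]
  refine hW p (hW1 (hW2 (hW3 hp))) q (hW1 (hW2 (hW3 hq))) hne
    ⟨⟨m p, p.F ∪ q.F, p.Pr ∪ q.Pr, a, ?_, ?_⟩, ⟨hm1 p, Finset.subset_union_left,
      Finset.subset_union_left, fun x hx n hn => ap x hx n (hn.trans_le (hm1 p))⟩,
      ⟨hmm ▸ hm1 q, Finset.subset_union_right, Finset.subset_union_right,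
        fun x hx n hn => aq x hx n (hn.trans_le (hmm ▸ hm1 q))⟩⟩
  · intro π hπ
    rcases Finset.mem_union.1 hπ with hπ | hπ
    · exact (p.hS π hπ).trans Finset.subset_union_left
    · exact (q.hS π hπ).trans Finset.subset_union_right
  · intro π hπ n hn
    rcases Finset.mem_union.1 hπ with hπ | hπ
    · by_cases h : n < m p
      · exact (p.hG π hπ n hn).congr fun x hx => by rw [ap x (p.hS π hπ hx) n h]
      · exact (key _ n (not_lt.1 h) (hw1 n (not_lt.1 h))).mono (p.hS π hπ) (inv_le_of_le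
          ((Finset.le_sup (f := fun π => π.2.1) hπ).trans (hK p (hW3 hp)).le))
    · by_cases h : n < m p
      · exact (q.hG π hπ n hn).congr fun x hx => by rw [aq x (q.hS π hπ hx) n h]
      · exact (key _ n (not_lt.1 h) (hw2 n (not_lt.1 h))).mono (q.hS π hπ) (inv_le_of_le
          ((Finset.le_sup (f := fun π => π.2.1) hπ).trans (hK q (hW3 hq)).le))

theorem exists_generic {K : Type} [Infinite K] (hMA : H318Z.MA.MartinAxiom.{0, 0} K) (D : Set X)
    (hD : #D ≤ #K) : ∃ a : X → ℕ → ℝ, ∀ S : Finset X, (S : Set X) ⊆ D → ∀ ε > 0,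
      ∀ᶠ n in cofinite, Good Y τ (3 * M) S ε n fun x => a x n := by
  classical
  have hK : ℵ₀ ≤ #K := Cardinal.aleph0_le_mk K
  have hI : #(Finset D × ℕ × ℕ) ≤ #K := by
    rw [Cardinal.mk_prod, Cardinal.lift_id, Cardinal.lift_id]
    refine (mul_le_mul' ?_ (Cardinal.mk_le_aleph0.trans hK)).trans (Cardinal.mul_eq_self hK).le
    rcases finite_or_infinite D with h | h
    · exact Cardinal.mk_le_aleph0.trans hK
    · rwa [Cardinal.mk_finset_of_infinite]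
  obtain ⟨e⟩ := hI
  let g : K → Finset D × ℕ × ℕ := Function.invFun e
  have hg : Function.Surjective g := Function.invFun_surjective e.injective
  obtain ⟨G, -, -, hG2, hG3⟩ := hMA (PC Y τ (3 * M))
    ⟨⟨0, ∅, ∅, fun _ _ => 0, by simp, by simp⟩⟩ (PC.ccc hM hA)
    (fun k => {q | (g k).1.image Subtype.val ⊆ q.F ∧
      (∃ m, ((g k).1.image Subtype.val, (g k).2.1, m) ∈ q.Pr) ∧ (g k).2.2 ≤ q.N})
    (fun k p => by
      obtain ⟨q, h1, h2⟩ := PC.dense hM hA p ((g k).1.image Subtype.val) (g k).2.1 (g k).2.2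
      exact ⟨q, h2, h1⟩)
  have hG4 : ∀ S : Finset X, (S : Set X) ⊆ D → ∀ k m0 : ℕ, ∃ q ∈ G, S ⊆ q.F ∧
      (∃ m, (S, k, m) ∈ q.Pr) ∧ m0 ≤ q.N := by
    intro S hS k m0
    obtain ⟨j, hj⟩ := hg (S.subtype (· ∈ D), k, m0)
    obtain ⟨q, h1, h2⟩ := hG3 j
    have h3 : (S.subtype (· ∈ D)).image Subtype.val = S := by
      ext x
      simp only [Finset.mem_image, Finset.mem_subtype, Subtype.exists, exists_and_right,
        exists_eq_right]
      exact ⟨fun ⟨_, h⟩ => h, fun h => ⟨hS h, h⟩⟩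
    simp only [mem_ofPred_eq, hj, h3] at h2
    exact ⟨q, h1, h2⟩
  have h1 : ∀ (x : X) (n : ℕ), ∃ r : ℚ, ∀ q ∈ G, x ∈ q.F → n < q.N → q.a x n = r := by
    intro x n
    by_cases h : ∃ q ∈ G, x ∈ q.F ∧ n < q.N
    · obtain ⟨q, h1, h2, h3⟩ := h
      refine ⟨q.a x n, fun q' h1' h2' h3' => ?_⟩
      obtain ⟨r, -, h4, h5⟩ := hG2 q q' ⟨h1, h1'⟩
      rw [← h4.2.2.2 x h2 n h3, ← h5.2.2.2 x h2' n h3']
    · exact ⟨0, fun q h1 h2 h3 => absurd ⟨q, h1, h2, h3⟩ h⟩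
  choose a ha using h1
  refine ⟨fun x n => a x n, fun S hS ε hε => ?_⟩
  obtain ⟨k, hk⟩ := exists_nat_one_div_lt hε
  obtain ⟨p, hp, -, ⟨m, hm⟩, -⟩ := hG4 S hS k 0
  rw [Nat.cofinite_eq_atTop, Filter.eventually_atTop]
  refine ⟨m, fun n hn => ?_⟩
  obtain ⟨q, hq, -, -, hq'⟩ := hG4 S hS k (n + 1)
  obtain ⟨r, hr, h4, h5⟩ := hG2 p q ⟨hp, hq⟩
  have h6 := h4.2.2.1 hm
  refine ((r.hG _ h6 n hn).congr fun x hx => ?_).mono (Finset.Subset.refl _) hk.le
  rw [ha x n r hr (r.hS _ h6 hx) (lt_of_lt_of_le hq' h5.1)]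

end

theorem lamInjective {K : Type} [Infinite K] (hMA : H318Z.MA.MartinAxiom.{0, 0} K) :
    LamInjective C(NStar, ℝ) 3 (Order.succ #K) := by
  intro X _ _ _ hX Y _ t
  choose rep hrep using exists_rep
  obtain ⟨D, hD, hDc, hDY⟩ := exists_dense_pair Y (Cardinal.aleph0_le_mk K) (Order.lt_succ_iff.1 hX)
  obtain ⟨a, ha⟩ := exists_generic (τ := fun y => rep (t y)) t.opNorm_nonneg
    (fun H hH η hη => lift_asymp Y t _ (fun y => hrep _) H hH hη) hMA D hDc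
  obtain ⟨T, hT1, hT2⟩ := exists_operator D hD (3 * ‖t‖) (mul_nonneg (by norm_num) t.opNorm_nonneg)
    a fun S hS ε hε => by
      filter_upwards [ha S hS ε hε] with n ⟨φ, h1, h2, _⟩
      exact ⟨φ, h1, h2⟩
  refine ⟨T, fun y => ?_, hT1⟩
  refine hDY.induction (P := fun y : Y => T y = t y) (fun y hy => ?_)
    (isClosed_eq (T.continuous.comp continuous_subtype_val) t.continuous) y
  ext u
  have h1 : Tendsto (fun n => a y n - rep (t y) n) u.1 (𝓝 (T y u - t y u)) :=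
    (hT2 y hy u).sub (hrep (t y) u)
  have h2 : Tendsto (fun n => a y n - rep (t y) n) u.1 (𝓝 0) := by
    refine Metric.tendsto_nhds.2 fun ε hε => ?_
    filter_upwards [(ha {y.1} (by simpa using hy) (ε / 2) (half_pos hε)).filter_mono (nstar_le u)]
      with n ⟨φ, _, _, h3⟩
    rw [Real.dist_eq, sub_zero]
    exact (h3 y (Finset.mem_singleton_self _)).trans_lt (half_lt_self hε)
  exact sub_eq_zero.1 (tendsto_nhds_unique h1 h2)

open Pool.Agent.Helper292.ForceCH in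
theorem alephInjective (hMA : H318Z.MA.MartinAxiom.{0, 0} Om) :
    AlephInjective C(NStar, ℝ) (ℵ_ 2) := by
  have h1 : #Om = ℵ₁ := Cardinal.mk_ord_toType _
  have : Infinite Om := Cardinal.infinite_iff.2 (by rw [h1]; exact aleph0_le_aleph 1)
  have h2 := lamInjective hMA
  rw [h1, ← Cardinal.aleph_succ] at h2
  refine ⟨3, by norm_num, ?_⟩
  convert h2 using 2
  rw [Order.succ_eq_add_one]
  norm_num

end Pool.Agent.H513Z.Inj
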